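import Pool.Agent.Q266.RP.Stm

/-!
# Job CYC of project RP
-/

set_option autoImplicit false

namespace Pool.Agent.Q194.RP

open Pool.Agent.Q266.RP Finset

/-- at most `p ^ k` solutions of `g ^ (p ^ k) = 1` -/
lemma card_omega {p : ℕ} {G : Type} [Group G] [Fintype G] [DecidableEq G] (hP : PowAll p G)
    (h1 : (univ.filter fun g : G => g ^ p = 1).card ≤ p) (k : ℕ) :
    (univ.filter fun g : G => g ^ (p ^ k) = 1).card ≤ p ^ k := by
  induction k with
  | zero =>
    rw [pow_zero, Finset.card_le_one]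
    intro a ha b hb
    rw [mem_filter, pow_one] at ha hb
    rw [ha.2, hb.2]
  | succ k ih =>
    have h2 := Finset.card_le_mul_card_image (f := fun g : G => g ^ (p ^ k))
      (univ.filter fun g : G => g ^ (p ^ (k + 1)) = 1) (p ^ k) (by
        intro a ha
        obtain ⟨g, hg, rfl⟩ := mem_image.1 ha
        refine (Finset.card_le_card_of_injOn (fun x => g⁻¹ * x) ?_ ?_).trans ih
        · intro x hx
          have hx2 := (mem_filter.1 hx).2
          simp only [coe_filter, mem_univ, true_and, Set.mem_setOf_eq]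
          exact (hP k g x).1 hx2.symm
        · intro x _ y _ hxy
          exact mul_left_cancel hxy)
    have h3 : ((univ.filter fun g : G => g ^ (p ^ (k + 1)) = 1).image
        fun g : G => g ^ (p ^ k)).card ≤ p := by
      refine (Finset.card_le_card ?_).trans h1
      intro a ha
      obtain ⟨g, hg, rfl⟩ := mem_image.1 ha
      rw [mem_filter]
      refine ⟨mem_univ _, ?_⟩
      rw [← pow_mul, ← pow_succ]
      exact (mem_filter.1 hg).2
    calc _ ≤ _ := h2
      _ ≤ p ^ k * p := Nat.mul_le_mul_left _ h3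
      _ = p ^ (k + 1) := (pow_succ p k).symm

theorem cyc : S_CYC := by
  intro p hp G _ _ hG hP hc
  classical
  have _ := Fintype.ofFinite G
  have h1 : (univ.filter fun g : G => g ^ p = 1).card ≤ p := by
    rw [Nat.card_eq_fintype_card, Fintype.card_subtype] at hc
    exact hc
  have hcyc : IsCyclic G := by
    refine isCyclic_of_card_pow_eq_one_le fun n hn => ?_
    obtain ⟨k, m, hm, rfl⟩ := Nat.exists_eq_pow_mul_and_not_dvd hn.ne' p hp.out.ne_one
    have hm0 : 0 < m := Nat.pos_of_ne_zero fun h => hm (h ▸ dvd_zero p)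
    have h2 : (univ.filter fun g : G => g ^ (p ^ k * m) = 1) ⊆
        univ.filter fun g : G => g ^ (p ^ k) = 1 := by
      intro g hg
      rw [mem_filter] at hg ⊢
      refine ⟨mem_univ _, ?_⟩
      obtain ⟨j, hj⟩ := (IsPGroup.iff_orderOf.1 hG) g
      have h3 := orderOf_dvd_of_pow_eq_one hg.2
      rw [← orderOf_dvd_iff_pow_eq_one]
      refine Nat.Coprime.dvd_of_dvd_mul_right ?_ h3
      rw [hj]
      exact Nat.Coprime.pow_left j ((Nat.Prime.coprime_iff_not_dvd hp.out).2 hm)
    calc _ ≤ _ := Finset.card_le_card h2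
      _ ≤ p ^ k := card_omega hP h1 k
      _ ≤ p ^ k * m := Nat.le_mul_of_pos_right _ hm0
  intro a b
  obtain ⟨g, hg⟩ := hcyc.exists_generator
  obtain ⟨i, rfl⟩ := Subgroup.mem_zpowers_iff.1 (hg a)
  obtain ⟨j, rfl⟩ := Subgroup.mem_zpowers_iff.1 (hg b)
  rw [← zpow_add, ← zpow_add, add_comm]

end Pool.Agent.Q194.RP
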